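import Pool.Agent.H38.TO.S8.Y727.PSP.Stm

/-!
# Project HS (helper843): Szemerédi's theorem relative to arbitrary sifted sets

Let `Z p`, for every prime `p ≤ X ^ κ`, be a set of at most `r` residue classes modulo `p` (not all of
them), and let `S ⊆ (A, A + X]` be a set of integers which avoids the classes `Z p` for all `p ≤ X ^ κ`,
with at least `δ X ∏ (1 - |Z p| / p)` elements. Then `S` contains progressions of `k` terms with a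
difference `≤ (log X) ^ B`.

The set `S` is compared, in windows `x + 1, …, x + N` with `N = (log X) ^ B`, with the weight
`nu n = 1[n avoids Z p for s < p ≤ z] * Th n / (V q)` where `Th` is a Brun-Hooley upper bound sieve
for the primes of `(z, R]`. The relative Szemerédi theorem is that of helper727 (`Pool.Agent.Y727.PSP`).
-/

set_option autoImplicit false

open Finset

namespace Pool.Agent.Y843.HS

open Pool.Agent.H602R3.DHJ (av)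
open Pool.Agent.Y727.PSP (LF LFk Lf S_RS rp sl)

/-- the primes `a < p ≤ b` -/
def Pr (a b : ℕ) : Finset ℕ := (Ioc a b).filter Nat.Prime

/-- at most `r` classes modulo every prime of `(s, R]` -/
def Sv (r s R : ℕ) (Z : ℕ → Finset ℕ) : Prop := ∀ p ∈ Pr s R, (Z p).card ≤ r ∧ ∀ c ∈ Z p, c < p

/-- `∏ (1 - |Z p| / p)` over the primes of `(a, b]` -/
noncomputable def VV (Z : ℕ → Finset ℕ) (a b : ℕ) : ℝ := ∏ p ∈ Pr a b, (1 - ((Z p).card : ℝ) / p)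

/-- the sum of the coefficients `θ U` over the sets `U` of primes of `(z, R]` such that `n` is in one of
the classes of `Z p` for all `p ∈ U` -/
noncomputable def Th (Z : ℕ → Finset ℕ) (z R : ℕ) (θ : Finset ℕ → ℝ) (n : ℕ) : ℝ :=
  ∑ U ∈ (Pr z R).powerset.filter (fun U => ∀ p ∈ U, n % p ∈ Z p), θ U

/-- the mean value of `Th` -/
noncomputable def qq (Z : ℕ → Finset ℕ) (z R : ℕ) (θ : Finset ℕ → ℝ) : ℝ :=
  ∑ U ∈ (Pr z R).powerset, θ U * ∏ p ∈ U, ((Z p).card : ℝ) / p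

/-- upper bound sieve weights of level `R ^ C` -/
structure Wt (C : ℕ) (Z : ℕ → Finset ℕ) (z R : ℕ) (θ : Finset ℕ → ℝ) : Prop where
  one : θ ∅ = 1
  abs : ∀ U, |θ U| ≤ 1
  lev : ∀ U ⊆ Pr z R, θ U ≠ 0 → ∏ p ∈ U, p ≤ R ^ C
  nonneg : ∀ n, 0 ≤ Th Z z R θ n
  lo : VV Z z R ≤ qq Z z R θ
  hi : qq Z z R θ ≤ C * VV Z z R

/-- (TH) the weights of Brun and Hooley -/
def S_TH : Prop := ∀ r : ℕ, ∃ C : ℕ, 1 ≤ C ∧ ∀ J0 J : ℕ, C ≤ J0 → J0 ≤ J →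
  ∀ Z : ℕ → Finset ℕ, Sv r (2 ^ 2 ^ J0) (2 ^ 2 ^ J) Z →
    ∃ θ : Finset ℕ → ℝ, Wt C Z (2 ^ 2 ^ J0) (2 ^ 2 ^ J) θ

/-- the classes `c` modulo `p` such that `c + u i` is in a class of `Z p` for some `i` -/
def Om (Z : ℕ → Finset ℕ) {m : ℕ} (u : Fin m → ℕ) (p : ℕ) : Finset ℕ :=
  (range p).filter (fun c => ∃ i, (c + u i) % p ∈ Z p)

/-- two of the shifts `u i` collide modulo `p` -/
def Co (Z : ℕ → Finset ℕ) {m : ℕ} (u : Fin m → ℕ) (p : ℕ) : Prop :=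
  ∃ i j : Fin m, i ≠ j ∧ ∃ c : ℕ, (c + u i) % p ∈ Z p ∧ (c + u j) % p ∈ Z p

open Classical in
/-- `∏ (1 + K / p)` over the primes of `(a, b]` with collisions -/
noncomputable def Coll (K : ℕ) (Z : ℕ → Finset ℕ) (a b : ℕ) {m : ℕ} (u : Fin m → ℕ) : ℝ :=
  ∏ p ∈ (Pr a b).filter (fun p => Co Z u p), (1 + (K : ℝ) / p)

/-- (LOC) the local factors -/
def S_LOC : Prop := ∀ r m : ℕ, ∃ K : ℕ, ∀ ε : ℝ, 0 < ε → ∃ s₀ : ℕ, ∀ s z : ℕ, s₀ ≤ s →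
  ∀ Z : ℕ → Finset ℕ, Sv r s z Z → ∀ u : Fin m → ℕ,
    (1 - ε) * VV Z s z ^ m ≤ ∏ p ∈ Pr s z, (1 - ((Om Z u p).card : ℝ) / p) ∧
    ∏ p ∈ Pr s z, (1 - ((Om Z u p).card : ℝ) / p) ≤ VV Z s z ^ m * Coll K Z s z u

open Classical in
/-- (FLC) the fundamental lemma in a class modulo `D`, with arbitrary sets of classes -/
def S_FLC : Prop := ∃ C : ℕ, 1 ≤ C ∧ ∀ κ b s J0 : ℕ, C * (κ + 1) ≤ b → C * (κ + 1) ≤ s →
  ∀ Om : ℕ → Finset ℕ, Sv κ s (2 ^ 2 ^ J0) Om → ∀ D a A X : ℕ, 1 ≤ D →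
  (∀ p ∈ Pr s (2 ^ 2 ^ J0), ¬ p ∣ D) →
  |(((Ioc A (A + X)).filter (fun x => x % D = a % D ∧
      ∀ p ∈ Pr s (2 ^ 2 ^ J0), x % p ∉ Om p)).card : ℝ) -
    (X : ℝ) / D * ∏ p ∈ Pr s (2 ^ 2 ^ J0), (1 - ((Om p).card : ℝ) / p)| ≤
    (1 / 2 : ℝ) ^ b * ((X : ℝ) / D * ∏ p ∈ Pr s (2 ^ 2 ^ J0), (1 - ((Om p).card : ℝ) / p)) +
      ((2 : ℝ) ^ 2 ^ J0) ^ (C * b)

/-- the number of the classes `c` modulo `p` with `c + u i` in a class of `Z p` for all `i` such that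
`p ∈ U i` -/
def nU (Z : ℕ → Finset ℕ) {m : ℕ} (u : Fin m → ℕ) (U : Fin m → Finset ℕ) (p : ℕ) : ℕ :=
  ((range p).filter (fun c => ∀ i, p ∈ U i → (c + u i) % p ∈ Z p)).card

/-- the term of the families `U` in the correlation of `Th` -/
noncomputable def aU (Z : ℕ → Finset ℕ) (θ : Finset ℕ → ℝ) {m : ℕ} (u : Fin m → ℕ)
    (U : Fin m → Finset ℕ) : ℝ :=
  (∏ i, θ (U i)) * ∏ p ∈ univ.biUnion U, (nU Z u U p : ℝ) / p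

/-- `exp (∑ 1 / p)` over the primes of `(a, b]` -/
noncomputable def EE (a b : ℕ) : ℝ := Real.exp (∑ p ∈ Pr a b, (1 : ℝ) / p)

/-- (TUP) the sums over the tuples of sets of primes -/
def S_TUP : Prop := ∀ r m : ℕ, ∃ K : ℕ, ∀ z R : ℕ, K ≤ z → ∀ Z : ℕ → Finset ℕ, Sv r z R Z →
  ∀ θ : Finset ℕ → ℝ, (∀ U, |θ U| ≤ 1) → ∀ u : Fin m → ℕ,
    |∑ U ∈ Fintype.piFinset (fun _ : Fin m => (Pr z R).powerset), aU Z θ u U - qq Z z R θ ^ m| ≤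
      EE z R ^ K * (Coll K Z z R u - 1 + K / z) ∧
    ∑ U ∈ Fintype.piFinset (fun _ : Fin m => (Pr z R).powerset), |aU Z θ u U| ≤
      EE z R ^ K * Coll K Z z R u

/-- the weight -/
noncomputable def nu (Z : ℕ → Finset ℕ) (s z R : ℕ) (θ : Finset ℕ → ℝ) (n : ℕ) : ℝ :=
  (if ∀ p ∈ Pr s z, n % p ∉ Z p then 1 else 0) * Th Z z R θ n / (VV Z s z * qq Z z R θ)

/-- (COR) the correlations of the weight -/
def S_COR : Prop := ∀ r M C : ℕ, ∃ C1 : ℕ, ∀ ε : ℝ, 0 < ε → ∃ g K s₀ : ℕ, ∀ s : ℕ, s₀ ≤ s →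
  ∃ J₁ : ℕ, ∀ J A X : ℕ, J₁ ≤ J → (2 ^ 2 ^ J) ^ C1 ≤ X → ∀ Z : ℕ → Finset ℕ,
    Sv r s (2 ^ 2 ^ J) Z → ∀ θ : Finset ℕ → ℝ, Wt C Z (2 ^ 2 ^ (J - g)) (2 ^ 2 ^ J) θ →
    ∀ m ≤ M, ∀ u : Fin m → ℕ,
      |(∑ x ∈ Ioc A (A + X), ∏ i, nu Z s (2 ^ 2 ^ (J - g)) (2 ^ 2 ^ J) θ (x + u i)) / X - 1| ≤
        ε + K * (Coll K Z s (2 ^ 2 ^ J) u - 1)

open Classical in
/-- `∏ (1 + K / p)` over the primes `p` of `(a, b]` such that `h` is modulo `p` a difference of two of the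
classes of `Z p` -/
noncomputable def Gd (K : ℕ) (Z : ℕ → Finset ℕ) (a b : ℕ) (h : ℤ) : ℝ :=
  ∏ p ∈ (Pr a b).filter (fun p => ∃ c ∈ Z p, ∃ c' ∈ Z p, (p : ℤ) ∣ h - ((c : ℤ) - c')),
    (1 + (K : ℝ) / p)

/-- (GAV) the average of `Gd` over the short differences -/
def S_GAV : Prop := ∀ r K : ℕ, ∀ ε : ℝ, 0 < ε → ∃ s₀ B₀ X₀ : ℕ, ∀ s R X N : ℕ, s₀ ≤ s → X₀ ≤ X →
  R ≤ X → Real.log X ^ B₀ ≤ N → ∀ Z : ℕ → Finset ℕ, Sv r s R Z →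
    (∑ h ∈ Ioo (-(N : ℤ)) N, (Gd K Z s R h - 1)) / N ≤ ε

/-- (DEN) the sifting primes between `R` and `R ^ L` -/
def S_DEN : Prop := ∀ r L : ℕ, ∃ c : ℝ, 0 < c ∧ ∃ R₀ : ℕ, ∀ R Y : ℕ, R₀ ≤ R → Y ≤ R ^ L →
  ∀ Z : ℕ → Finset ℕ, Sv r R Y Z → c ≤ VV Z R Y

/-- (FIN) Szemerédi's theorem relative to sifted sets, with narrow progressions -/
def S_FIN : Prop := ∀ k r : ℕ, ∀ κ δ : ℝ, 0 < κ → 0 < δ → ∃ B X₀ : ℕ, ∀ X A : ℕ, X₀ ≤ X →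
  ∀ Z : ℕ → Finset ℕ, (∀ p : ℕ, p.Prime → (p : ℝ) ≤ (X : ℝ) ^ κ →
    (Z p).card ≤ r ∧ (Z p).card < p ∧ ∀ c ∈ Z p, c < p) →
  ∀ S : Finset ℕ, S ⊆ Ioc A (A + X) →
    (∀ n ∈ S, ∀ p : ℕ, p.Prime → (p : ℝ) ≤ (X : ℝ) ^ κ → n % p ∉ Z p) →
    δ * X * VV Z 0 ⌊(X : ℝ) ^ κ⌋₊ ≤ S.card →
    ∃ a d : ℕ, 1 ≤ d ∧ (d : ℝ) ≤ Real.log X ^ B ∧ ∀ j < k, a + j * d ∈ S

end Pool.Agent.Y843.HS
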